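import Pool.Agent.MP_ca0a54_nt.BH2.Spec
import Pool.Agent.MP_ca0a54_nt.H78M.Spec

/-! Short sums with a rational twist, on a window. -/

open Complex Filter Finset

namespace Pool.Agent.MP_ca0a54_nt.BH2.RAT

open Pool.Agent.MP_ca0a54_nt.BH

theorem dyad {F : ℕ → ℝ} {c : ℝ} {a : ℕ} (ha : 1 ≤ a) (hF : ∀ n, 0 ≤ F n)
    (h : ∀ X, a ≤ X → ∑ n ∈ Ioc X (2 * X), F n ≤ c * X) (I : ℕ) :
    ∑ n ∈ Ioc a (2 ^ I * a), F n / n ≤ c * I := by
  induction I with
  | zero => simp
  | succ I ih =>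
    have h1 : a ≤ 2 ^ I * a := Nat.le_mul_of_pos_left _ (by positivity)
    have h0 : (0 : ℝ) < (2 ^ I * a : ℕ) := by exact_mod_cast ha.trans h1
    have h2 : ∑ n ∈ Ioc (2 ^ I * a) (2 * (2 ^ I * a)), F n / n ≤ c := by
      refine le_trans (sum_le_sum fun n hn => div_le_div_of_nonneg_left (hF n) h0
        (by exact_mod_cast (mem_Ioc.1 hn).1.le)) ?_
      rw [← sum_div, div_le_iff₀ h0]
      exact h _ h1
    rw [pow_succ', mul_assoc, ← sum_Ioc_consecutive _ h1 (by omega)]
    push_cast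
    linarith

theorem win {F : ℕ → ℝ} {c : ℝ} (N : Win) (hc : 0 ≤ c) (hF : ∀ n, 0 ≤ F n)
    (h : ∀ X, N.lo ≤ X → ∑ n ∈ Ioc X (2 * X), F n ≤ c * X) : LS N F ≤ c * (2 * lg N + 1) := by
  have h0 : (0 : ℝ) < N.lo := by exact_mod_cast N.pos
  have h1 := lg_nonneg N
  have h2 : N.hi ≤ 2 ^ ⌈2 * lg N⌉₊ * N.lo := by
    have a1 : Real.log N.hi ≤ Real.log (2 ^ ⌈2 * lg N⌉₊ * N.lo) := by
      rw [Real.log_mul (by positivity) h0.ne', Real.log_pow]
      have := mul_le_mul (Nat.le_ceil (2 * lg N)) Real.log_two_gt_d9.le (by norm_num)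
        (Nat.cast_nonneg _)
      unfold lg at this h1
      unfold lg
      linarith
    exact_mod_cast (Real.log_le_log_iff (by exact_mod_cast N.pos.trans N.le) (by positivity)).1 a1
  refine le_trans (sum_le_sum_of_subset_of_nonneg (Ioc_subset_Ioc_right h2)
    fun n _ _ => div_nonneg (hF n) (Nat.cast_nonneg n)) ((dyad N.pos hF h _).trans ?_)
  exact mul_le_mul_of_nonneg_left (Nat.ceil_lt_add_one (by linarith)).le hc

theorem rat (fin : H78M.FinStmt) (α : ℚ) : Short (tw α) := by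
  intro ε hε
  obtain ⟨H₁, hH⟩ := fin α.den (ε / 4) α.den_pos (by positivity)
  filter_upwards [eventually_ge_atTop H₁, eventually_ge_atTop 1] with K hK K1
  obtain ⟨X₀, hX⟩ := eventually_atTop.1 (hH K hK)
  filter_upwards [tendsto_lo.eventually_ge_atTop X₀, tendsto_lg.eventually_ge_atTop 1,
    tendsto_lg.eventually_ge_atTop (12 / ε)] with N h1 h2 h3
  have K0 : (0 : ℝ) < K := by exact_mod_cast K1
  set F : ℕ → ℝ := fun n => ‖∑ j ∈ range K, tw α (n + j)‖ ^ 2 with hF
  have hb : ∀ n, |F n| ≤ (K : ℝ) ^ 2 := fun n => by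
    rw [abs_of_nonneg (by positivity)]
    refine pow_le_pow_left₀ (norm_nonneg _) ((norm_sum_le _ _).trans
      ((sum_le_card_nsmul _ _ 1 fun j _ => ?_).trans_eq (by simp))) 2
    rw [tw, norm_mul, norm_ei, mul_one, norm_real]
    exact abs_lam_le _
  have h4 := (abs_le.1 (LS_shift hb N 1)).1
  have h5 := win (F := fun n => F (n + 1)) (c := ε / 4 * K ^ 2) N (by positivity)
    (fun n => by positivity) fun X hX' => by
      have a1 := hX X (h1.trans hX') (fun n => ei (2 * Real.pi * α * n))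
        (fun n => (norm_ei _).le) fun n => by
          rw [Nat.cast_add, mul_add, ei_add, mul_assoc _ (α : ℝ) (α.den : ℝ),
            show (α : ℝ) * α.den = α.num by exact_mod_cast α.mul_den_eq_num]
          have : ei (2 * Real.pi * α.num) = 1 := by
            rw [ei, exp_eq_one_iff]
            exact ⟨α.num, by push_cast; ring⟩
          rw [this, mul_one]
      rw [mul_right_comm]
      refine le_of_eq_of_le ?_ (mul_le_mul_of_nonneg_right a1 (sq_nonneg (K : ℝ)))
      rw [H78M.sh, sum_mul]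
      refine sum_congr rfl fun x _ => ?_
      rw [norm_mul, norm_inv, norm_natCast, mul_pow, hF, ← Ico_add_one_right_eq_Icc,
        sum_Ico_eq_sum_range, Nat.add_sub_cancel]
      field_simp
      congr 2
      refine sum_congr rfl fun j _ => ?_
      rw [add_assoc, tw, lam, H78M.lam, ofReal_intCast]
  rw [div_le_iff₀ hε] at h3
  have h6 := mul_le_mul_of_nonneg_left h3 (sq_nonneg (K : ℝ))
  have h7 := mul_le_mul_of_nonneg_left h2 (show 0 ≤ ε * (K : ℝ) ^ 2 by positivity)
  push_cast at h4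
  nlinarith

theorem short (fin : H78M.FinStmt) (irr : ∀ α : ℝ, Irrational α → Short (tw α)) (α : ℝ) :
    Short (tw α) := by
  by_cases h : Irrational α
  · exact irr α h
  · obtain ⟨q, rfl⟩ := not_not.1 h
    exact rat fin q

end Pool.Agent.MP_ca0a54_nt.BH2.RAT
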