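import Pool.Agent.MP_ca0a54_nt.BH2.Spec
import Pool.Agent.MP_ca0a54_nt.BH.ZFIN

/-! From the local inequality and the Chowla bound on windows to the final statement. -/

open Complex MeasureTheory Filter Topology

namespace Pool.Agent.MP_ca0a54_nt.BH2

open Pool.Agent.MP_ca0a54_nt.BH Pool.Agent.MP_ca0a54_nt.BH.ZFIN

theorem zfin (hc : ChStmt) (h1 : Z1Stmt) (hd : ZdStmt) (ho : Zo1Stmt) (hw : Zo2Stmt) :
    FinalStmt := by
  classical
  intro C ε hε
  obtain ⟨K, Λ, H, hΛ, hH, hloc⟩ := loc h1 hd ho hw C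
  obtain ⟨T₀, hT₀⟩ := eventually_atTop.1 hloc
  obtain ⟨j₀, hj₀⟩ := pow_unbounded_of_one_lt T₀ (one_lt_two : (1 : ℝ) < 2)
  obtain ⟨E, hE⟩ := pow_unbounded_of_one_lt H (one_lt_two : (1 : ℝ) < 2)
  obtain ⟨D, hD⟩ := exists_nat_ge (2 * Λ)
  set ε' : ℝ := ε / (20 * Λ * (K + 1)) with hε'
  have hε0 : 0 < ε' := by positivity
  obtain ⟨M₀, W₀, hch⟩ := exists_of_Fw ((eventually_all_finset (Finset.Icc 1 K)).2 fun h hh =>
    hc h Λ ε' (Finset.mem_Icc.1 hh).1 (by linarith) hε0)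
  refine ⟨j₀ + M₀ + ⌈2 * W₀⌉₊ + (1 + E + D), fun i J hi hJ => ?_⟩
  have l1 := Real.log_two_gt_d9
  have l2 := Real.log_two_lt_d9
  obtain ⟨b, rfl⟩ : ∃ b, i = b + D := ⟨i - D, by omega⟩
  let N : Win := ⟨2 ^ b, 2 ^ (b + D + J + 1 + E), Nat.one_le_two_pow,
    Nat.pow_le_pow_right two_pos (by omega)⟩
  have hlg : lg N = (J + (1 + E + D : ℕ)) * Real.log 2 := by
    simp only [lg, N, Nat.cast_pow, Real.log_pow]
    push_cast
    ring
  have hJ0 : (0 : ℝ) ≤ J := Nat.cast_nonneg J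
  have hJ1 : ((1 + E + D : ℕ) : ℝ) ≤ J := by exact_mod_cast (by omega : 1 + E + D ≤ J)
  have hJ2 : 2 * W₀ ≤ J := (Nat.le_ceil _).trans (by exact_mod_cast (by omega : ⌈2 * W₀⌉₊ ≤ J))
  have hJ3 : (0 : ℝ) ≤ (1 + E + D : ℕ) := Nat.cast_nonneg _
  have hlog : lg N ≤ 2 * J := by rw [hlg]; nlinarith
  replace hch := hch N (le_trans (by omega) (Nat.lt_two_pow_self (n := b)).le)
    (by rw [hlg]; nlinarith)
  set B := (Finset.Icc (b + D) (b + D + J)).filter fun j => ∃ T : ℝ, 2 ^ j ≤ T ∧ T ≤ 2 ^ (j + 1) ∧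
    ¬ Gap T ((1 / 2 - C / Real.log T) * (2 * Real.pi / Real.log T)) with hB
  refine ⟨B, ?_, fun j hj hj' hjB T t1 t2 => ?_⟩
  swap
  · by_contra hG
    exact hjB (Finset.mem_filter.2 ⟨Finset.mem_Icc.2 ⟨hj, hj'⟩, T, t1, t2, hG⟩)
  have hex : ∀ j : ℕ, ∃ (s : ℝ) (u : ℕ → ℝ → ℂ), j ∈ B →
      (j * Real.log 2 ≤ s ∧ s ≤ (j + 1) * Real.log 2) ∧ (∀ h ∈ Finset.Icc 1 K, Wt Λ s (u h)) ∧
      1 ≤ -(∑ h ∈ Finset.Icc 1 K,
        LC N fun m => u h (Real.log m) * (lam m * lam (m + h) : ℝ)).im := fun j => by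
    by_cases hj : j ∈ B
    swap
    · exact ⟨0, 0, fun h => absurd h hj⟩
    obtain ⟨b1, T, t1, t2, hG⟩ := Finset.mem_filter.1 hj
    rw [Finset.mem_Icc] at b1
    have t0 : T₀ ≤ T := hj₀.le.trans ((pow_le_pow_right₀ one_le_two (by omega)).trans t1)
    obtain ⟨u, u1, u2⟩ := hT₀ T t0 hG
    have p0 : (0 : ℝ) < 2 ^ j := by positivity
    have p1 : j * Real.log 2 ≤ Real.log T := by
      rw [← Real.log_pow]
      exact Real.log_le_log p0 t1
    refine ⟨Real.log T, u, fun _ => ⟨⟨p1, ?_⟩, u1, le_of_le_of_eq (u2 N.hi (Nat.ceil_le.2 ?_)) ?_⟩⟩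
    · have := Real.log_le_log (p0.trans_le t1) t2
      rwa [Real.log_pow, Nat.cast_add_one] at this
    · simp only [N]
      push_cast
      rw [pow_add _ _ E, mul_comm]
      exact mul_le_mul (t2.trans (pow_le_pow_right₀ one_le_two (Nat.succ_le_succ b1.2))) hE.le
        (by linarith) (by positivity)
    · congr 2
      refine Finset.sum_congr rfl fun h hh => ?_
      rw [LC_eq, eq_comm, sub_eq_self]
      refine Finset.sum_eq_zero fun m hm => ?_
      obtain ⟨m1, m2⟩ := Finset.mem_Icc.1 hm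
      have q1 : Real.log m ≤ b * Real.log 2 := by
        rw [← Real.log_pow]
        exact Real.log_le_log (by exact_mod_cast m1) (by exact_mod_cast m2)
      have q2 : (b : ℝ) + D ≤ j := by exact_mod_cast b1.1
      have q3 := mul_le_mul_of_nonneg_right q2 (by linarith : 0 ≤ Real.log 2)
      have q4 := mul_le_mul_of_nonneg_right hD (by linarith : 0 ≤ Real.log 2)
      beta_reduce
      rw [(u1 h hh).supp _ (lt_abs.2 (Or.inr (by nlinarith))), zero_mul, zero_div]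
  choose s u hsu using hex
  have hΛ0 : (0 : ℝ) < 10 * Λ := by linarith
  have key : ∀ h ∈ Finset.Icc 1 K, ‖∑ j ∈ B,
      LC N fun m => u j h (Real.log m) * (lam m * lam (m + h) : ℝ)‖ ≤ 10 * Λ * (ε' * (2 * J)) := by
    intro h hh
    obtain ⟨g1, g2⟩ := glob B s (fun j => u j h) Λ hΛ (fun j hj => (hsu j hj).1)
      fun j hj => (hsu j hj).2.1 h hh
    have hn : ‖(((10 * Λ)⁻¹ : ℝ) : ℂ)‖ = (10 * Λ)⁻¹ := by
      rw [norm_real, Real.norm_of_nonneg (by positivity)]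
    have g3 := hch h hh (fun v => ((10 * Λ)⁻¹ : ℝ) * ∑ j ∈ B, u j h v)
      (fun v => by rw [norm_mul, hn, inv_mul_le_iff₀ hΛ0, mul_one]; exact g1 v)
      fun v w => by rw [← mul_sub, norm_mul, hn, inv_mul_le_iff₀ hΛ0]; exact g2 v w
    simp only [mul_assoc (((10 * Λ)⁻¹ : ℝ) : ℂ)] at g3
    rw [LC_mul, norm_mul, hn, inv_mul_le_iff₀ hΛ0] at g3
    simp only [Finset.sum_mul] at g3
    rw [LC_sum] at g3
    exact g3.trans (by gcongr)
  have hcard : (B.card : ℝ) ≤ K * (10 * Λ * (ε' * (2 * J))) := by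
    have c1 : (B.card : ℝ) ≤ -(∑ j ∈ B, ∑ h ∈ Finset.Icc 1 K,
        LC N fun m => u j h (Real.log m) * (lam m * lam (m + h) : ℝ)).im := by
      rw [im_sum, ← Finset.sum_neg_distrib, Finset.card_eq_sum_ones, Nat.cast_sum]
      exact Finset.sum_le_sum fun j hj => by simpa using (hsu j hj).2.2
    rw [Finset.sum_comm] at c1
    refine c1.trans ((neg_le_abs _).trans ((abs_im_le_norm _).trans ((norm_sum_le _ _).trans
      ((Finset.sum_le_card_nsmul _ _ _ key).trans (le_of_eq ?_)))))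
    rw [nsmul_eq_mul, Nat.card_Icc, Nat.add_sub_cancel]
  have e : (K + 1) * (10 * Λ * (ε' * (2 * J))) = ε * J := by
    rw [hε']
    field_simp
    ring
  rw [← e]
  exact hcard.trans (by gcongr; linarith)

end Pool.Agent.MP_ca0a54_nt.BH2
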