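import Pool.Agent.MP_ca0a54_nt.BH2.AVG
import Pool.Agent.MP_ca0a54_nt.BH2.CH
import Pool.Agent.MP_ca0a54_nt.BH2.ENT
import Pool.Agent.MP_ca0a54_nt.BH2.IRR
import Pool.Agent.MP_ca0a54_nt.BH2.RAT
import Pool.Agent.MP_ca0a54_nt.BH2.WIEN
import Pool.Agent.MP_ca0a54_nt.BH2.ZFIN
import Pool.Agent.MP_ca0a54_nt.H78M.Fin
import Pool.Agent.MP_ca0a54_nt.BH.AVG
import Pool.Agent.MP_ca0a54_nt.BH.DECR
import Pool.Agent.MP_ca0a54_nt.BH.GAL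
import Pool.Agent.MP_ca0a54_nt.BH.GH
import Pool.Agent.MP_ca0a54_nt.BH.MV
import Pool.Agent.MP_ca0a54_nt.BH.SEL
import Pool.Agent.MP_ca0a54_nt.BH.SLOW
import Pool.Agent.MP_ca0a54_nt.BH.TWIN
import Pool.Agent.MP_ca0a54_nt.BH.ZA
import Pool.Agent.MP_ca0a54_nt.BH.ZE
import Pool.Agent.MP_ca0a54_nt.BH.ZM
import Pool.Agent.MP_ca0a54_nt.BH.ZO1
import Pool.Agent.MP_ca0a54_nt.BH.ZO2
import Pool.Agent.MP_ca0a54_nt.BH.ZQ
import Pool.Agent.MP_ca0a54_nt.H51.LF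
import Pool.Agent.MP_ca0a54_nt.H88.AR1
import Pool.Agent.MP_ca0a54_nt.H91.SC

/-! The assembly. -/

namespace Pool.Agent.MP_ca0a54_nt.BH2

open Pool.Agent.MP_ca0a54_nt

theorem chowla : ChStmt :=
  CH.ch (ENT.ent (BH.DECR.decr BH.GH.gibbs BH.GH.hoef))
    (AVG.avg (WIEN.wien (RAT.short H78M.fin fun _ h => IRR.irr h))
      (BH.TWIN.twin' BH.SEL.sel BH.SLOW.slow BH.SEL.phi)) BH.AVG.ps

theorem z1 : BH.Z1Stmt :=
  BH.ZM.z1 H91.shift BH.GAL.fej (BH.ZQ.zq H91.shift H91.pole H51.lf H23.pf H88.ar1)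
    (BH.ZE.ze (BH.MV.mv (BH.GAL.gal BH.GAL.fej)) H88.ar1)

theorem final : FinalStmt :=
  zfin chowla z1 (BH.ZA.zd BH.ZA.za) (BH.ZO1.zo1 BH.ZA.za H88.ar1) BH.ZO2.zo2

/-- The same for every starting point. -/
theorem final' (C ε : ℝ) (hε : 0 < ε) : ∃ W₀ : ℕ, ∀ W : ℕ, W₀ ≤ W → ∀ J : ℕ, ∃ B : Finset ℕ,
    (B.card : ℝ) ≤ ε * W ∧ ∀ j : ℕ, J ≤ j → j ≤ J + W → j ∉ B → ∀ T : ℝ, 2 ^ j ≤ T →
    T ≤ 2 ^ (j + 1) → BH.Gap T ((1 / 2 - C / Real.log T) * (2 * Real.pi / Real.log T)) := by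
  obtain ⟨J₀, h⟩ := final C (ε / 2) (by positivity)
  refine ⟨J₀ + ⌈2 * J₀ / ε⌉₊, fun W hW J => ?_⟩
  obtain ⟨B, h1, h2⟩ := h (max J J₀) W (le_max_right _ _) (by omega)
  refine ⟨Finset.range J₀ ∪ B, ?_, fun j a b c => ?_⟩
  · have a1 : 2 * J₀ / ε ≤ W := (Nat.le_ceil _).trans (Nat.cast_le.2 (by omega))
    have a2 : ((Finset.range J₀ ∪ B).card : ℝ) ≤ J₀ + B.card := by
      exact_mod_cast (Finset.card_union_le _ _).trans_eq (by rw [Finset.card_range])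
    rw [div_le_iff₀ hε] at a1
    linarith
  · rw [Finset.mem_union, not_or, Finset.mem_range, not_lt] at c
    exact h2 j (max_le a c.1) (b.trans (Nat.add_le_add_right (le_max_left _ _) W)) c.2

end Pool.Agent.MP_ca0a54_nt.BH2
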