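import Pool.Agent.MP_ca0a54_nt.BH.Basic

/-! Logarithmic means over windows `(lo, hi]`: definitions, statements, elementary lemmas. -/

open Complex Filter Topology

namespace Pool.Agent.MP_ca0a54_nt.BH2

open Pool.Agent.MP_ca0a54_nt.BH

/-- A window of integers. -/
structure Win where
  lo : ℕ
  hi : ℕ
  pos : 1 ≤ lo
  le : lo ≤ hi

/-- The logarithmic length. -/
noncomputable def lg (N : Win) : ℝ := Real.log N.hi - Real.log N.lo

/-- Long windows that start far away. -/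
noncomputable def Fw : Filter Win := comap Win.lo atTop ⊓ comap lg atTop

/-- The sum of `f n / n` over the window. -/
noncomputable def LS (N : Win) (f : ℕ → ℝ) : ℝ := ∑ n ∈ Finset.Ioc N.lo N.hi, f n / n

/-- The same with complex values. -/
noncomputable def LC (N : Win) (f : ℕ → ℂ) : ℂ := ∑ n ∈ Finset.Ioc N.lo N.hi, f n / n

def Short (g : ℕ → ℂ) : Prop := ∀ ε : ℝ, 0 < ε → ∀ᶠ K : ℕ in atTop, ∀ᶠ N in Fw,
  LS N (fun n => ‖∑ j ∈ Finset.range K, g (n + j)‖ ^ 2) ≤ ε * K ^ 2 * lg N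

def WienStmt : Prop := ∀ δ : ℝ, 0 < δ → ∀ᶠ K : ℕ in atTop, ∀ᶠ N in Fw,
  ∑ k ∈ Finset.Icc 1 K, LS N (fun n => lam n * lam (n + k)) ^ 2 ≤ δ * K * lg N ^ 2

def AvgStmt : Prop := ∀ (h : ℕ) (c ε : ℝ), 1 ≤ h → 0 < c → 0 < ε → ∀ᶠ x : ℕ in atTop,
  ∀ᶠ N in Fw, ∀ P : Finset ℕ, (∀ p ∈ P, p.Prime ∧ x < p ∧ p ≤ 3 * x) →
  c * x / Real.log x ≤ P.card →
  LS N (fun n => (∑ p ∈ P, lam (n + p * h)) ^ 2) ≤ ε * (P.card : ℝ) ^ 2 * lg N

def EntStmt : Prop := ∀ (h H₀ : ℕ) (c ε : ℝ) (P : ℕ → Finset ℕ), 1 ≤ h → 0 < c → 0 < ε →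
  Adm h c P → ∃ G : Finset ℕ, (∀ H ∈ G, H₀ ≤ H) ∧ ∀ᶠ N in Fw, ∃ H ∈ G,
  LS N (fun n => |FA (fun j => lam (n + j)) n (P H) h H|) ≤ ε * (P H).card * H * lg N

def ChStmt : Prop := ∀ (h : ℕ) (Λ ε : ℝ), 1 ≤ h → 0 ≤ Λ → 0 < ε → ∀ᶠ N in Fw,
  ∀ u : ℝ → ℂ, (∀ v, ‖u v‖ ≤ 1) → (∀ v w, ‖u v - u w‖ ≤ Λ * |v - w|) →
  ‖LC N fun n => u (Real.log n) * (lam n * lam (n + h) : ℝ)‖ ≤ ε * lg N

def FinalStmt : Prop := ∀ C ε : ℝ, 0 < ε → ∃ J₀ : ℕ, ∀ i J : ℕ, J₀ ≤ i → J₀ ≤ J →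
  ∃ B : Finset ℕ, (B.card : ℝ) ≤ ε * J ∧ ∀ j : ℕ, i ≤ j → j ≤ i + J → j ∉ B → ∀ T : ℝ,
  2 ^ j ≤ T → T ≤ 2 ^ (j + 1) →
  Gap T ((1 / 2 - C / Real.log T) * (2 * Real.pi / Real.log T))

theorem tendsto_lg : Tendsto lg Fw atTop := tendsto_comap.mono_left inf_le_right

theorem tendsto_lo : Tendsto Win.lo Fw atTop := tendsto_comap.mono_left inf_le_left

theorem exists_of_Fw {p : Win → Prop} (h : ∀ᶠ N in Fw, p N) :
    ∃ (M : ℕ) (W : ℝ), ∀ N : Win, M ≤ N.lo → W ≤ lg N → p N := by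
  obtain ⟨s, hs, t, ht, h⟩ := mem_inf_iff_superset.1 h
  obtain ⟨s', hs', h1⟩ := mem_comap.1 hs
  obtain ⟨t', ht', h2⟩ := mem_comap.1 ht
  obtain ⟨M, hM⟩ := mem_atTop_sets.1 hs'
  obtain ⟨W, hW⟩ := mem_atTop_sets.1 ht'
  exact ⟨M, W, fun N a b => h ⟨h1 (hM _ a), h2 (hW _ b)⟩⟩

theorem lg_nonneg (N : Win) : 0 ≤ lg N :=
  sub_nonneg.2 (Real.log_le_log (by exact_mod_cast N.pos) (by exact_mod_cast N.le))

theorem one_le_of_mem {N : Win} {n : ℕ} (h : n ∈ Finset.Ioc N.lo N.hi) : 1 ≤ n :=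
  N.pos.trans (Finset.mem_Ioc.1 h).1.le

theorem LC_eq (N : Win) (f : ℕ → ℂ) : LC N f = BH.LC N.hi f - BH.LC N.lo f := by
  have e : ∀ M : ℕ, Finset.Icc 1 M = Finset.Ioc 0 M := fun M => rfl
  unfold LC BH.LC
  rw [e, e, ← Finset.sum_Ioc_consecutive _ (Nat.zero_le N.lo) N.le, add_sub_cancel_left]

theorem LS_mono {N : Win} {f g : ℕ → ℝ} (h : ∀ n, 1 ≤ n → n ≤ N.hi → f n ≤ g n) :
    LS N f ≤ LS N g :=
  Finset.sum_le_sum fun n hn => div_le_div_of_nonneg_right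
    (h n (one_le_of_mem hn) (Finset.mem_Ioc.1 hn).2) (Nat.cast_nonneg n)

theorem LS_add (N : Win) (f g : ℕ → ℝ) : LS N (fun n => f n + g n) = LS N f + LS N g := by
  simp only [LS, add_div, Finset.sum_add_distrib]

theorem LS_mul (N : Win) (c : ℝ) (f : ℕ → ℝ) : LS N (fun n => c * f n) = c * LS N f := by
  simp only [LS, mul_div_assoc, Finset.mul_sum]

theorem LS_sum {ι : Type*} (N : Win) (S : Finset ι) (f : ι → ℕ → ℝ) :
    LS N (fun n => ∑ i ∈ S, f i n) = ∑ i ∈ S, LS N (f i) := by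
  simp only [LS, Finset.sum_div]
  exact Finset.sum_comm

theorem LC_add (N : Win) (f g : ℕ → ℂ) : LC N (fun n => f n + g n) = LC N f + LC N g := by
  simp only [LC, add_div, Finset.sum_add_distrib]

theorem LC_sub (N : Win) (f g : ℕ → ℂ) : LC N (fun n => f n - g n) = LC N f - LC N g := by
  simp only [LC, sub_div, Finset.sum_sub_distrib]

theorem LC_mul (N : Win) (c : ℂ) (f : ℕ → ℂ) : LC N (fun n => c * f n) = c * LC N f := by
  simp only [LC, mul_div_assoc, Finset.mul_sum]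

theorem LC_sum {ι : Type*} (N : Win) (S : Finset ι) (f : ι → ℕ → ℂ) :
    LC N (fun n => ∑ i ∈ S, f i n) = ∑ i ∈ S, LC N (f i) := by
  simp only [LC, Finset.sum_div]
  exact Finset.sum_comm

theorem LC_ofReal (N : Win) (f : ℕ → ℝ) : LC N (fun n => (f n : ℂ)) = (LS N f : ℝ) := by
  simp [LC, LS]

theorem norm_LC_le (N : Win) (f : ℕ → ℂ) : ‖LC N f‖ ≤ LS N fun n => ‖f n‖ := by
  unfold LC LS
  refine norm_sum_le_of_le _ fun n _ => ?_
  rw [norm_div, norm_natCast]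

theorem LS_one_le (N : Win) : LS N (fun _ => 1) ≤ 1 + lg N :=
  (sum_inv_Ioc N.pos N.le).trans (le_add_of_nonneg_left zero_le_one)

theorem LS_nonneg {N : Win} {f : ℕ → ℝ} (h : ∀ n, 1 ≤ n → n ≤ N.hi → 0 ≤ f n) : 0 ≤ LS N f := by
  have := LS_mono (N := N) (f := fun _ => 0) (g := f) h
  simpa [LS] using this

theorem LS_le {N : Win} {f : ℕ → ℝ} {B : ℝ} (hB : 0 ≤ B)
    (h : ∀ n, 1 ≤ n → n ≤ N.hi → f n ≤ B) : LS N f ≤ B * (1 + lg N) := by
  have h1 := LS_mono (N := N) (f := f) (g := fun _ => B * 1) (by simpa using h)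
  rw [LS_mul] at h1
  exact h1.trans (mul_le_mul_of_nonneg_left (LS_one_le N) hB)

theorem LS_le_LS {N : Win} {f : ℕ → ℝ} (h : ∀ n, 0 ≤ f n) : LS N f ≤ BH.LS N.hi f :=
  Finset.sum_le_sum_of_subset_of_nonneg
    (fun _ hn => Finset.mem_Icc.2 ⟨one_le_of_mem hn, (Finset.mem_Ioc.1 hn).2⟩)
    fun n _ _ => div_nonneg (h n) (Nat.cast_nonneg n)

theorem LS_sq_le (N : Win) (f : ℕ → ℝ) :
    LS N f ^ 2 ≤ (1 + lg N) * LS N fun n => f n ^ 2 := by
  refine le_trans (Finset.sum_sq_le_sum_mul_sum_of_sq_le_mul (Finset.Ioc N.lo N.hi)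
    (f := fun n : ℕ => 1 / (n : ℝ)) (g := fun n : ℕ => f n ^ 2 / n) (fun n _ => by positivity)
    (fun n _ => by positivity) fun n _ => le_of_eq (by ring)) ?_
  exact mul_le_mul_of_nonneg_right (LS_one_le N) (LS_nonneg fun n _ _ => sq_nonneg _)

theorem LC_shift_one {f : ℕ → ℂ} {B : ℝ} (hf : ∀ n, ‖f n‖ ≤ B) (N : Win) :
    ‖LC N (fun n => f (n + 1)) - LC N f‖ ≤ 3 * B := by
  have hB : 0 ≤ B := (norm_nonneg _).trans (hf 0)
  obtain ⟨a, b, ha, hab⟩ := N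
  have key : ∀ M : ℕ, a ≤ M → ‖∑ n ∈ Finset.Ioc a M, f (n + 1) / n - ∑ n ∈ Finset.Ioc a M, f n / n -
      (f (M + 1) / M - f (a + 1) / a)‖ ≤ B * (1 - 1 / M) := by
    intro M hM
    induction M, hM using Nat.le_induction with
    | base =>
      have : 1 / (a : ℝ) ≤ 1 := div_le_one_of_le₀ (by exact_mod_cast ha) (Nat.cast_nonneg a)
      simp only [Finset.Ioc_self, Finset.sum_empty, sub_self, norm_zero]
      exact mul_nonneg hB (by linarith)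
    | succ M hM ih =>
      have h0 : (0 : ℝ) ≤ 1 / M - 1 / (M + 1 : ℕ) :=
        sub_nonneg.2 (one_div_le_one_div_of_le (by exact_mod_cast ha.trans hM)
          (by push_cast; linarith))
      have e : ∑ n ∈ Finset.Ioc a (M + 1), f (n + 1) / n - ∑ n ∈ Finset.Ioc a (M + 1), f n / n -
          (f (M + 1 + 1) / (M + 1 : ℕ) - f (a + 1) / a) =
          (∑ n ∈ Finset.Ioc a M, f (n + 1) / n - ∑ n ∈ Finset.Ioc a M, f n / n -
          (f (M + 1) / M - f (a + 1) / a)) + f (M + 1) * ((1 / M - 1 / (M + 1 : ℕ) : ℝ) : ℂ) := by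
        rw [Finset.sum_Ioc_succ_top hM, Finset.sum_Ioc_succ_top hM]
        push_cast
        ring
      rw [e]
      refine (norm_add_le _ _).trans ?_
      rw [norm_mul, norm_real, Real.norm_of_nonneg h0]
      nlinarith [mul_le_mul_of_nonneg_right (hf (M + 1)) h0]
  have h2 : ∀ M : ℕ, 1 ≤ M → ‖f (M + 1) / M‖ ≤ B := fun M hM => by
    rw [norm_div, norm_natCast]
    exact (div_le_self (norm_nonneg _) (by exact_mod_cast hM)).trans (hf _)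
  have h3 := norm_sub_le (f (b + 1) / b) (f (a + 1) / a)
  have h4 : 0 ≤ B * (1 / (b : ℝ)) := by positivity
  refine (norm_le_norm_sub_add _ (f (b + 1) / b - f (a + 1) / a)).trans ?_
  have h5 := key b hab
  unfold LC
  linarith [h2 a ha, h2 b (ha.trans hab)]

theorem LC_shift {f : ℕ → ℂ} {B : ℝ} (hf : ∀ n, ‖f n‖ ≤ B) (N : Win) (j : ℕ) :
    ‖LC N (fun n => f (n + j)) - LC N f‖ ≤ 3 * j * B := by
  induction j with
  | zero => simp
  | succ j ih =>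
    have h1 := LC_shift_one (f := fun n => f (n + j)) (fun n => hf _) N
    have e : (fun n => f (n + 1 + j)) = fun n => f (n + (j + 1)) := by
      funext n
      congr 1
      ring
    rw [e] at h1
    have h2 := norm_add_le (LC N (fun n => f (n + (j + 1))) - LC N fun n => f (n + j))
      (LC N (fun n => f (n + j)) - LC N f)
    rw [sub_add_sub_cancel] at h2
    push_cast
    linarith

theorem LS_shift {f : ℕ → ℝ} {B : ℝ} (hf : ∀ n, |f n| ≤ B) (N : Win) (j : ℕ) :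
    |LS N (fun n => f (n + j)) - LS N f| ≤ 3 * j * B := by
  have h := LC_shift (f := fun n => (f n : ℂ)) (fun n => by simpa using hf n) N j
  rw [LC_ofReal N fun n => f (n + j), LC_ofReal, ← ofReal_sub, norm_real] at h
  exact h

theorem LC_dil {f : ℕ → ℂ} {B : ℝ} (hf : ∀ n, ‖f n‖ ≤ B) (N : Win) {d : ℕ} (hd : 1 ≤ d) :
    ‖LC N (fun n => if d ∣ n then f n else 0) - LC N (fun m => f (d * m)) / d‖ ≤ 2 * B := by
  rw [LC_eq, LC_eq, sub_div, sub_sub_sub_comm, two_mul]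
  exact (norm_sub_le _ _).trans (add_le_add (BH.LC_dil hf _ hd) (BH.LC_dil hf _ hd))

end Pool.Agent.MP_ca0a54_nt.BH2
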